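import Pool.Agent.Lib.MP_19b7b8_co.T53

set_option autoImplicit false

/-!
# MP_19b7b8_co (Turan density t(5,3)): the bound one quarter up to four-sets spanning two triples

If every five points of a triple system `F` on `n` points span a triple, and `M` is the number of
four-point sets which span exactly two triples, then
`n ^ 3 / 24 - 13 n ^ 2 - 32 (M n ^ 5) ^ (1 / 3) ≤ |F|`.
-/

namespace Pool.Agent.Results.MP_19b7b8_co.FewTwoQuads

/-- Triple systems in which every five points span a triple: the number of triples is at least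
`n ^ 3 / 24 - 13 n ^ 2 - 32 (M n ^ 5) ^ (1 / 3)`, where `M` is the number of four-point sets which
span exactly two triples. -/
theorem result (n : ℕ) (F : Finset (Finset (Fin n))) (hF : ∀ e ∈ F, e.card = 3)
    (h5 : ∀ S : Finset (Fin n), S.card = 5 → ∃ e ∈ F, e ⊆ S) :
    (n : ℝ) ^ 3 / 24 - 13 * (n : ℝ) ^ 2 -
      32 * (((Finset.univ.filter fun S : Finset (Fin n) =>
        S.card = 4 ∧ (F.filter (· ⊆ S)).card = 2).card : ℝ) * (n : ℝ) ^ 5) ^ (1 / 3 : ℝ) ≤
        F.card :=
  Pool.Agent.MP_19b7b8_co.T53.main_fin n F hF h5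

end Pool.Agent.Results.MP_19b7b8_co.FewTwoQuads
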