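import Pool.Agent.Lib.MP_19b7b8_co_FB.Lim

set_option autoImplicit false

/-!
# MP_19b7b8_co (Turan density t(5,3)): the value 1/4 for systems without five six-point systems

The bound is proved by flag algebra identities on six vertices with an exact certificate (a finite
check by the kernel), together with the equality of all degrees for optimal vertex weights.
-/

namespace Pool.Agent.Results.MP_19b7b8_co.FiveSystems

open Pool.Agent.T53b

/-- Let `F` be a set of triples of `n` points such that every five points contain a triple of `F`.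
Call a set of six points bad if the triples of `F` in it are one of five given systems (for some
naming of the points).  If there is no bad set, `F` has at least `n^3/24 - n^2/2 + n/3` triples; if
there are at most `δ (n choose 6)` bad sets, at least `(1/4 - ε) (n choose 3)`; and the smallest
number of triples without bad sets is asymptotically `(1/4) (n choose 3)`. -/
theorem result :
    (∀ (n : ℕ) (F : Finset (Finset (Fin n))), (∀ e ∈ F, e.card = 3) →
      (∀ S : Finset (Fin n), S.card = 5 → ∃ e ∈ F, e ⊆ S) → badSets F = ∅ →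
      (n : ℝ) ^ 3 / 24 - (n : ℝ) ^ 2 / 2 + (n : ℝ) / 3 ≤ F.card) ∧
    (∀ ε : ℝ, 0 < ε → ∃ δ : ℝ, 0 < δ ∧ ∃ n0 : ℕ, ∀ n : ℕ, n0 ≤ n →
      ∀ F : Finset (Finset (Fin n)), (∀ e ∈ F, e.card = 3) →
        (∀ S : Finset (Fin n), S.card = 5 → ∃ e ∈ F, e ⊆ S) →
        ((badSets F).card : ℝ) ≤ δ * (n.choose 6 : ℝ) →
        (1 / 4 - ε) * (n.choose 3 : ℝ) ≤ F.card) ∧
    Filter.Tendsto
      (fun n : ℕ =>
        ((sInf {m : ℕ | ∃ F : Finset (Finset (Fin n)),
            (∀ e ∈ F, e.card = 3) ∧
            (∀ S : Finset (Fin n), S.card = 5 → ∃ e ∈ F, e ⊆ S) ∧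
            badSets F = ∅ ∧ F.card = m} : ℕ) : ℝ) / ((n.choose 3 : ℕ) : ℝ))
      Filter.atTop (nhds (1 / 4)) :=
  ⟨fun _ F h3 h5 hb => lower_empty F h3 h5 hb, lower_few, limit_quarter⟩

end Pool.Agent.Results.MP_19b7b8_co.FiveSystems
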