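import Pool.Agent.Lib.MP_19b7b8_co_FC.Lim
import Pool.Agent.Lib.MP_19b7b8_co_FC.Rng

set_option autoImplicit false

/-!
# MP_19b7b8_co (Turan density t(5,3)): the value 1/4 for a class with both known constructions

Four systems of triples on five points are excluded.  The bound is proved by flag algebra
identities on six vertices with an exact certificate (a finite check by the kernel), the almost
equality of the degrees of optimal systems, and the lower bound of `FewTwoQuads` for systems with
few sets of four points that contain exactly two triples.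
-/

namespace Pool.Agent.Results.MP_19b7b8_co.FourFiveSystems

open Pool.Agent.T53c

/-- Let `F` be a set of triples of `n` points such that every five points contain a triple of `F`.
Call a set of five points bad if the triples of `F` in it are one of four given systems (for some
naming of the points).  If there are at most `δ (n choose 5)` bad sets, then `F` has at least
`(1/4 - ε) (n choose 3)` triples; the smallest number of triples without bad sets is asymptotically
`(1/4) (n choose 3)`; and all systems of Ringel and all two-part systems cover and have no bad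
sets. -/
theorem result :
    (∀ ε : ℝ, 0 < ε → ∃ δ : ℝ, 0 < δ ∧ ∃ n0 : ℕ, ∀ n : ℕ, n0 ≤ n →
      ∀ F : Finset (Finset (Fin n)), (∀ e ∈ F, e.card = 3) →
        (∀ S : Finset (Fin n), S.card = 5 → ∃ e ∈ F, e ⊆ S) →
        ((badSets F).card : ℝ) ≤ δ * (n.choose 5 : ℝ) →
        (1 / 4 - ε) * (n.choose 3 : ℝ) ≤ F.card) ∧
    Filter.Tendsto
      (fun n : ℕ =>
        ((sInf {m : ℕ | ∃ F : Finset (Finset (Fin n)),
            (∀ e ∈ F, e.card = 3) ∧
            (∀ S : Finset (Fin n), S.card = 5 → ∃ e ∈ F, e ⊆ S) ∧
            badSets F = ∅ ∧ F.card = m} : ℕ) : ℝ) / ((n.choose 3 : ℕ) : ℝ))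
      Filter.atTop (nhds (1 / 4)) ∧
    (∀ (n : ℕ) (F : Finset (Finset (Fin n))), ((∃ p : Fin n → ZMod 4, F = ringel p) ∨
        ∃ A : Finset (Fin n), F = Finset.powersetCard 3 A ∪
          Finset.powersetCard 3 (Finset.univ \ A)) →
      (∀ e ∈ F, e.card = 3) ∧ (∀ S : Finset (Fin n), S.card = 5 → ∃ e ∈ F, e ⊆ S) ∧
      badSets F = ∅) := by
  refine ⟨lower_few, limit_quarter, fun n F hF => ?_⟩
  have h : Cl F := by
    rcases hF with ⟨p, rfl⟩ | ⟨A, rfl⟩
    · exact ringel_cl p
    · exact two_cl A
  exact ⟨h.1.1, h.1.2, h.2⟩

end Pool.Agent.Results.MP_19b7b8_co.FourFiveSystems
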