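import Pool.Agent.Lib.MP_19b7b8_co_FA.Lim

set_option autoImplicit false

/-!
# MP_19b7b8_co (Turan density t(5,3)): the lower bound 0.2316

The bound is proved by flag algebra identities on six vertices (a finite check by the kernel)
together with the equality of all degrees for optimal vertex weights.
-/

namespace Pool.Agent.Results.MP_19b7b8_co.RegularDegrees

/-- A triple system on `n` points in which every five points span a triple has at least
`0.2316 n ^ 3 / 6 - n ^ 2 / 2` triples; in particular `t(5,3)` is at least `0.2316`. -/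
theorem result :
    (∀ (n : ℕ) (F : Finset (Finset (Fin n))), (∀ e ∈ F, e.card = 3) →
      (∀ S : Finset (Fin n), S.card = 5 → ∃ e ∈ F, e ⊆ S) →
      (579 / 2500 : ℝ) * (n : ℝ) ^ 3 / 6 - (n : ℝ) ^ 2 / 2 ≤ F.card) ∧
    ∀ L : ℝ, Filter.Tendsto
      (fun n : ℕ =>
        ((sInf {m : ℕ | ∃ F : Finset (Finset (Fin n)),
            (∀ e ∈ F, e.card = 3) ∧
            (∀ S : Finset (Fin n), S.card = 5 → ∃ e ∈ F, e ⊆ S) ∧
            F.card = m} : ℕ) : ℝ) / ((n.choose 3 : ℕ) : ℝ))
      Filter.atTop (nhds L) → 579 / 2500 ≤ L := by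
  refine ⟨fun n F h3 h5 => ?_, fun L hL => ?_⟩
  · have := Pool.Agent.T53.lower n F h3 h5
    linarith
  · exact Pool.Agent.T53.limit_bound _ Pool.Agent.T53.sInf_bound L hL

end Pool.Agent.Results.MP_19b7b8_co.RegularDegrees
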